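import Mathlib

/-! Gram determinants and Lagrange bases (linear algebra). -/

open Polynomial MeasureTheory

namespace Pool.Agent.LPB

namespace GramAux

/-! ### The bilinear form -/

/-- the form `∫ f g w` -/
noncomputable def ip (w : ℝ → ℝ) (hI : ∀ q : ℝ[X], Integrable (fun y : ℝ => q.eval y * w y)) :
    LinearMap.BilinForm ℝ ℝ[X] :=
  LinearMap.mk₂ ℝ (fun f g => ∫ y : ℝ, (f * g).eval y * w y)
    (by
      intro f f' g
      rw [← integral_add (hI _) (hI _)]
      refine integral_congr_ae (Filter.Eventually.of_forall fun y => ?_)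
      simp only [add_mul, eval_add])
    (by
      intro c f g
      rw [smul_eq_mul, ← integral_const_mul]
      refine integral_congr_ae (Filter.Eventually.of_forall fun y => ?_)
      simp only [smul_mul_assoc, eval_smul, smul_eq_mul]
      ring)
    (by
      intro f g g'
      rw [← integral_add (hI _) (hI _)]
      refine integral_congr_ae (Filter.Eventually.of_forall fun y => ?_)
      simp only [mul_add, eval_add, add_mul])
    (by
      intro c f g
      rw [smul_eq_mul, ← integral_const_mul]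
      refine integral_congr_ae (Filter.Eventually.of_forall fun y => ?_)
      simp only [mul_smul_comm, eval_smul, smul_eq_mul]
      ring)

section form

variable {w : ℝ → ℝ} (hw : Continuous w) (hp : ∀ y, 0 < w y)
  (hI : ∀ q : ℝ[X], Integrable (fun y : ℝ => q.eval y * w y))

theorem ip_def (f g : ℝ[X]) : ip w hI f g = ∫ y : ℝ, (f * g).eval y * w y := rfl

theorem ip_symm (f g : ℝ[X]) : ip w hI f g = ip w hI g f := by
  rw [ip_def, ip_def, mul_comm]

include hp in
theorem ip_nonneg (f : ℝ[X]) : 0 ≤ ip w hI f f := by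
  rw [ip_def]
  refine integral_nonneg fun y => ?_
  rw [eval_mul]
  exact mul_nonneg (mul_self_nonneg _) (hp y).le

include hw hp in
theorem ip_pos {f : ℝ[X]} (hf : f ≠ 0) : 0 < ip w hI f f := by
  rw [ip_def]
  have h0 : 0 ≤ fun y : ℝ => (f * f).eval y * w y := by
    intro y
    simp only [Pi.zero_apply, eval_mul]
    exact mul_nonneg (mul_self_nonneg _) (hp y).le
  rw [integral_pos_iff_support_of_nonneg h0 (hI _)]
  have hc : Continuous fun y : ℝ => (f * f).eval y * w y := (f * f).continuous.mul hw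
  refine hc.isOpen_support.measure_pos volume ?_
  by_contra hne
  rw [Set.not_nonempty_iff_eq_empty, Function.support_eq_empty_iff] at hne
  refine hf (Polynomial.funext fun y => ?_)
  have h1 := congrFun hne y
  simp only [eval_mul, Pi.zero_apply] at h1
  rcases mul_eq_zero.1 h1 with h | h
  · simpa using mul_self_eq_zero.1 h
  · exact absurd h (hp y).ne'

include hp in
theorem ip_cs (f g : ℝ[X]) : (ip w hI f g) ^ 2 ≤ ip w hI f f * ip w hI g g := by
  have h := (ip w hI).apply_mul_apply_le_of_forall_zero_le (ip_nonneg hp hI) f g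
  rw [ip_symm hI g f] at h
  rw [sq]
  exact h

end form

/-! ### Orthogonal polynomials -/

/-- Gram-Schmidt -/
noncomputable def gs (B : LinearMap.BilinForm ℝ ℝ[X]) : ℕ → ℝ[X]
  | i => X ^ i - ∑ j : Fin i, C (B (X ^ i) (gs B j) / B (gs B j) (gs B j)) * gs B j
decreasing_by exact j.2

theorem gs_eq (B : LinearMap.BilinForm ℝ ℝ[X]) (i : ℕ) :
    gs B i = X ^ i - ∑ j : Fin i, C (B (X ^ i) (gs B j) / B (gs B j) (gs B j)) * gs B j := by
  rw [gs]

theorem gs_monic (B : LinearMap.BilinForm ℝ ℝ[X]) (i : ℕ) :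
    (gs B i).Monic ∧ (gs B i).natDegree = i := by
  induction i using Nat.strong_induction_on with
  | _ i ih =>
    have hd : (∑ j : Fin i, C (B (X ^ i) (gs B j) / B (gs B j) (gs B j)) * gs B j).degree <
        ((i : ℕ) : WithBot ℕ) := by
      refine mem_degreeLT.1 (Submodule.sum_mem _ fun j _ => mem_degreeLT.2 ?_)
      rw [← smul_eq_C_mul]
      refine lt_of_le_of_lt (degree_smul_le _ _) ?_
      refine lt_of_le_of_lt degree_le_natDegree ?_
      rw [(ih j j.2).2]
      exact_mod_cast j.2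
    rw [gs_eq]
    refine ⟨monic_X_pow_sub hd, ?_⟩
    have h1 : (X ^ i - ∑ j : Fin i, C (B (X ^ i) (gs B j) / B (gs B j) (gs B j)) * gs B j).degree
        = ((i : ℕ) : WithBot ℕ) := by
      rw [degree_sub_eq_left_of_degree_lt (by rw [degree_X_pow]; exact hd), degree_X_pow]
    exact natDegree_eq_of_degree_eq_some h1

theorem gs_orth (B : LinearMap.BilinForm ℝ ℝ[X]) (hs : ∀ f g, B f g = B g f)
    (hpos : ∀ f, f ≠ 0 → 0 < B f f) (i : ℕ) : ∀ j < i, B (gs B i) (gs B j) = 0 := by
  induction i using Nat.strong_induction_on with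
  | _ i ih =>
    intro j hj
    have h0 : B (gs B j) (gs B j) ≠ 0 := (hpos _ (gs_monic B j).1.ne_zero).ne'
    rw [gs_eq B i, map_sub, LinearMap.sub_apply, map_sum, LinearMap.sum_apply,
      Finset.sum_eq_single (⟨j, hj⟩ : Fin i)]
    · rw [← smul_eq_C_mul, map_smul, LinearMap.smul_apply, smul_eq_mul,
        div_mul_cancel₀ _ h0, sub_self]
    · intro l _ hl
      rw [← smul_eq_C_mul, map_smul, LinearMap.smul_apply, smul_eq_mul]
      have hne : (l : ℕ) ≠ j := fun h => hl (Fin.ext h)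
      rcases lt_or_gt_of_ne hne with h | h
      · rw [hs (gs B l) (gs B j), ih j hj l h, mul_zero]
      · rw [ih l l.2 j h, mul_zero]
    · intro h
      exact absurd (Finset.mem_univ _) h

/-! ### Determinants -/

/-- Gram matrix -/
noncomputable def gram (B : LinearMap.BilinForm ℝ ℝ[X]) (m : ℕ) (p : ℕ → ℝ[X]) :
    Matrix (Fin m) (Fin m) ℝ := Matrix.of fun i j => B (p i) (p j)

/-- coefficient matrix -/
noncomputable def cf (m : ℕ) (p : ℕ → ℝ[X]) : Matrix (Fin m) (Fin m) ℝ :=
  Matrix.of fun i j => (p i).coeff j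

theorem gram_eq (B : LinearMap.BilinForm ℝ ℝ[X]) (m : ℕ) (p : ℕ → ℝ[X])
    (hd : ∀ i < m, (p i).natDegree < m) :
    gram B m p = cf m p * gram B m (fun i => X ^ i) * (cf m p).transpose := by
  ext i j
  have hi : p i = ∑ k : Fin m, (p i).coeff k • (X : ℝ[X]) ^ (k : ℕ) := by
    conv_lhs => rw [(p i).as_sum_range' m (hd i i.2), Finset.sum_range]
    refine Finset.sum_congr rfl fun k _ => ?_
    rw [smul_X_eq_monomial]
  have hj : p j = ∑ k : Fin m, (p j).coeff k • (X : ℝ[X]) ^ (k : ℕ) := by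
    conv_lhs => rw [(p j).as_sum_range' m (hd j j.2), Finset.sum_range]
    refine Finset.sum_congr rfl fun k _ => ?_
    rw [smul_X_eq_monomial]
  rw [Matrix.mul_apply]
  simp only [Matrix.mul_apply, gram, cf, Matrix.of_apply, Matrix.transpose_apply]
  conv_lhs => rw [hi, hj]
  simp only [map_sum, LinearMap.sum_apply, map_smul, LinearMap.smul_apply, smul_eq_mul]
  exact Finset.sum_congr rfl fun k _ => mul_comm _ _

theorem det_gram (B : LinearMap.BilinForm ℝ ℝ[X]) (m : ℕ) (p : ℕ → ℝ[X])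
    (hd : ∀ i < m, (p i).natDegree < m) :
    (gram B m p).det = (cf m p).det ^ 2 * (gram B m (fun i => X ^ i)).det := by
  rw [gram_eq B m p hd, Matrix.det_mul, Matrix.det_mul, Matrix.det_transpose]
  ring

theorem det_cf_monic (m : ℕ) (p : ℕ → ℝ[X]) (hp : ∀ i, (p i).Monic ∧ (p i).natDegree = i) :
    (cf m p).det = 1 := by
  have h := Matrix.det_matrixOfPolynomials (fun i : Fin m => p i) (fun i => (hp i).2)
    (fun i => (hp i).1)
  rw [← Matrix.det_transpose] at h
  exact h

theorem det_gs (B : LinearMap.BilinForm ℝ ℝ[X]) (hs : ∀ f g, B f g = B g f)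
    (hpos : ∀ f, f ≠ 0 → 0 < B f f) (m : ℕ) :
    (gram B m (fun i => X ^ i)).det = ∏ i : Fin m, B (gs B i) (gs B i) := by
  have h1 := det_gram B m (gs B) (fun i hi => by rw [(gs_monic B i).2]; exact hi)
  rw [det_cf_monic m _ (gs_monic B), one_pow, one_mul] at h1
  rw [← h1]
  have h2 : gram B m (gs B) = Matrix.diagonal fun i : Fin m => B (gs B i) (gs B i) := by
    ext i j
    by_cases hij : i = j
    · subst hij
      rw [Matrix.diagonal_apply_eq]
      rfl
    · rw [Matrix.diagonal_apply_ne _ hij]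
      have hne : (i : ℕ) ≠ j := fun h => hij (Fin.ext h)
      rcases lt_or_gt_of_ne hne with h | h
      · exact (hs _ _).trans (gs_orth B hs hpos j i h)
      · exact gs_orth B hs hpos i j h
  rw [h2, Matrix.det_diagonal]

theorem det_le (B : LinearMap.BilinForm ℝ ℝ[X]) (hn : ∀ f, 0 ≤ B f f)
    (hcs : ∀ f g, B f g ^ 2 ≤ B f f * B g g) (m : ℕ) (p : ℕ → ℝ[X]) :
    (gram B m p).det ≤ (m.factorial : ℝ) * ∏ i : Fin m, B (p i) (p i) := by
  have hab : ∀ f g, |B f g| ≤ Real.sqrt (B f f) * Real.sqrt (B g g) := by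
    intro f g
    rw [← Real.sqrt_mul (hn f)]
    exact Real.abs_le_sqrt (hcs f g)
  have h1 : ∀ σ : Equiv.Perm (Fin m), (Equiv.Perm.sign σ • ∏ i, gram B m p (σ i) i : ℝ) ≤
      ∏ i : Fin m, B (p i) (p i) := by
    intro σ
    calc (Equiv.Perm.sign σ • ∏ i, gram B m p (σ i) i : ℝ)
        ≤ |∏ i, gram B m p (σ i) i| := by
          rcases Int.units_eq_one_or (Equiv.Perm.sign σ) with h | h
          · rw [h, one_smul]; exact le_abs_self _
          · rw [h, Units.neg_smul, one_smul]; exact neg_le_abs _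
      _ = ∏ i, |gram B m p (σ i) i| := Finset.abs_prod _ _
      _ ≤ ∏ i : Fin m, (Real.sqrt (B (p (σ i)) (p (σ i))) * Real.sqrt (B (p i) (p i))) :=
          Finset.prod_le_prod (fun i _ => abs_nonneg _) (fun i _ => hab _ _)
      _ = (∏ i : Fin m, Real.sqrt (B (p (σ i)) (p (σ i)))) *
            ∏ i : Fin m, Real.sqrt (B (p i) (p i)) := Finset.prod_mul_distrib
      _ = (∏ i : Fin m, Real.sqrt (B (p i) (p i))) * ∏ i : Fin m, Real.sqrt (B (p i) (p i)) := by
          rw [Equiv.prod_comp σ (fun i : Fin m => Real.sqrt (B (p i) (p i)))]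
      _ = ∏ i : Fin m, B (p i) (p i) := by
          rw [← Finset.prod_mul_distrib]
          exact Finset.prod_congr rfl fun i _ => Real.mul_self_sqrt (hn _)
  rw [Matrix.det_apply]
  calc (∑ σ : Equiv.Perm (Fin m), Equiv.Perm.sign σ • ∏ i, gram B m p (σ i) i : ℝ)
      ≤ ∑ _σ : Equiv.Perm (Fin m), ∏ i : Fin m, B (p i) (p i) := Finset.sum_le_sum fun σ _ => h1 σ
    _ = (m.factorial : ℝ) * ∏ i : Fin m, B (p i) (p i) := by
        rw [Finset.sum_const, Finset.card_univ, Fintype.card_perm, Fintype.card_fin, nsmul_eq_mul]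

/-! ### Vandermonde -/

theorem erase_map (m : ℕ) (i : Fin m) :
    (Finset.range m).erase (i : ℕ) = (Finset.univ.erase i).map Fin.valEmbedding := by
  rw [Finset.map_erase, Fin.map_valEmbedding_univ, Nat.Iio_eq_range]
  rfl

/-- the product of all differences -/
theorem prod_conv (m : ℕ) (f : ℕ → ℕ → ℝ) :
    ∏ i ∈ Finset.range m, ∏ j ∈ (Finset.range m).erase i, f i j =
      ∏ i : Fin m, ∏ j ∈ Finset.univ.erase i, f i j := by
  rw [Finset.prod_range]
  refine Finset.prod_congr rfl fun i _ => ?_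
  rw [erase_map, Finset.prod_map]
  rfl

theorem prod_sq (m : ℕ) (f : Fin m → Fin m → ℝ) (hf : ∀ i j, f i j = f j i) :
    ∏ i : Fin m, ∏ j ∈ Finset.univ.erase i, f i j =
      (∏ i : Fin m, ∏ j ∈ Finset.Ioi i, f j i) ^ 2 := by
  have h1 : ∀ i : Fin m, ∏ j ∈ Finset.univ.erase i, f i j =
      (∏ j ∈ Finset.Ioi i, f i j) * ∏ j ∈ Finset.Iio i, f i j := by
    intro i
    rw [← Finset.prod_union]
    · refine Finset.prod_congr ?_ fun _ _ => rfl
      ext j
      simp only [Finset.mem_erase, Finset.mem_univ, and_true, Finset.mem_union, Finset.mem_Ioi,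
        Finset.mem_Iio]
      constructor
      · intro h
        rcases lt_or_gt_of_ne h with h | h
        · exact Or.inr h
        · exact Or.inl h
      · rintro (h | h)
        · exact h.ne'
        · exact h.ne
    · rw [Finset.disjoint_left]
      intro j hj hj'
      exact absurd (Finset.mem_Ioi.1 hj) (not_lt.2 (Finset.mem_Iio.1 hj').le)
  rw [Finset.prod_congr rfl fun i _ => h1 i, Finset.prod_mul_distrib, sq]
  congr 1
  · refine Finset.prod_congr rfl fun i _ => Finset.prod_congr rfl fun j _ => hf i j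
  · rw [Finset.prod_comm' (t' := Finset.univ) (s' := fun j => Finset.Ioi j)]
    intro i j
    simp

theorem det_vand (m : ℕ) (x : ℕ → ℝ) :
    (Matrix.vandermonde (fun i : Fin m => x i)).det ^ 2 =
      ∏ i ∈ Finset.range m, ∏ j ∈ (Finset.range m).erase i, |x i - x j| := by
  rw [prod_conv, prod_sq m (fun i j => |x i - x j|) (fun i j => abs_sub_comm _ _),
    Matrix.det_vandermonde, ← sq_abs]
  congr 1
  rw [Finset.abs_prod]
  exact Finset.prod_congr rfl fun i _ => Finset.abs_prod _ _

/-- Lagrange basis, not normalised -/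
noncomputable def lg (m : ℕ) (x : ℕ → ℝ) (i : ℕ) : ℝ[X] :=
  ∏ j ∈ (Finset.range m).erase i, (X - C (x j))

theorem lg_deg (m : ℕ) (x : ℕ → ℝ) (i : ℕ) (hi : i < m) : (lg m x i).natDegree < m := by
  unfold lg
  rw [natDegree_prod_of_monic _ _ fun j _ => monic_X_sub_C _]
  simp only [natDegree_X_sub_C, Finset.sum_const, smul_eq_mul, mul_one]
  rw [Finset.card_erase_of_mem (Finset.mem_range.2 hi), Finset.card_range]
  omega

theorem lg_eval (m : ℕ) (x : ℕ → ℝ) (i : ℕ) (y : ℝ) :
    (lg m x i).eval y = ∏ j ∈ (Finset.range m).erase i, (y - x j) := by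
  unfold lg
  rw [eval_prod]
  exact Finset.prod_congr rfl fun j _ => by simp

theorem cf_vand (m : ℕ) (x : ℕ → ℝ) :
    cf m (lg m x) * (Matrix.vandermonde (fun i : Fin m => x i)).transpose =
      Matrix.diagonal fun i : Fin m => (lg m x i).eval (x i) := by
  ext i l
  rw [Matrix.mul_apply]
  have h1 : (∑ k : Fin m, cf m (lg m x) i k *
      (Matrix.vandermonde (fun i : Fin m => x i)).transpose k l) = (lg m x i).eval (x l) := by
    rw [eval_eq_sum_range' (lg_deg m x i i.2), Finset.sum_range]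
    rfl
  rw [h1]
  by_cases hil : i = l
  · subst hil
    rw [Matrix.diagonal_apply_eq]
  · rw [Matrix.diagonal_apply_ne _ hil, lg_eval]
    refine Finset.prod_eq_zero (i := (l : ℕ)) ?_ (sub_self _)
    rw [Finset.mem_erase]
    exact ⟨fun h => hil (Fin.ext h.symm), Finset.mem_range.2 l.2⟩

theorem det_cf_lg (m : ℕ) (x : ℕ → ℝ) (hx : Set.InjOn x (Finset.range m)) :
    (cf m (lg m x)).det ^ 2 =
      ∏ i ∈ Finset.range m, ∏ j ∈ (Finset.range m).erase i, |x i - x j| := by
  have h1 := congrArg Matrix.det (cf_vand m x)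
  rw [Matrix.det_mul, Matrix.det_transpose, Matrix.det_diagonal] at h1
  set D := ∏ i ∈ Finset.range m, ∏ j ∈ (Finset.range m).erase i, |x i - x j| with hD
  have h2 : |∏ i : Fin m, (lg m x i).eval (x i)| = D := by
    rw [hD, Finset.prod_range, Finset.abs_prod]
    refine Finset.prod_congr rfl fun i _ => ?_
    rw [lg_eval, Finset.abs_prod]
  have h3 := det_vand m x
  rw [← hD] at h3
  have hD0 : D ≠ 0 := by
    rw [hD]
    refine Finset.prod_ne_zero_iff.2 fun i hi => Finset.prod_ne_zero_iff.2 fun j hj => ?_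
    rw [abs_ne_zero, sub_ne_zero]
    intro h
    exact (Finset.ne_of_mem_erase hj) (hx (Finset.mem_coe.2 (Finset.mem_of_mem_erase hj))
      (Finset.mem_coe.2 hi) h.symm)
  have h4 : ((cf m (lg m x)).det * (Matrix.vandermonde (fun i : Fin m => x i)).det) ^ 2 = D ^ 2 := by
    rw [h1, ← h2, sq_abs]
  rw [mul_pow, h3, sq D] at h4
  exact mul_right_cancel₀ hD0 h4

end GramAux

open GramAux in
theorem gram_main (w : ℝ → ℝ) (hw : Continuous w) (hp : ∀ y, 0 < w y)
    (hI : ∀ q : ℝ[X], Integrable (fun y : ℝ => q.eval y * w y)) (m : ℕ) (x : ℕ → ℝ)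
    (hx : Set.InjOn x (Finset.range m)) :
    ∃ q : ℕ → ℝ[X], (∀ i < m, (q i).Monic ∧ (q i).natDegree = i) ∧
      (∏ i ∈ Finset.range m, ∫ y : ℝ, (q i).eval y ^ 2 * w y) *
        ∏ i ∈ Finset.range m, ∏ j ∈ (Finset.range m).erase i, |x i - x j| ≤
      (m.factorial : ℝ) * ∏ i ∈ Finset.range m,
        ∫ y : ℝ, (∏ j ∈ (Finset.range m).erase i, (y - x j)) ^ 2 * w y := by
  have hpos : ∀ f : ℝ[X], f ≠ 0 → 0 < ip w hI f f := fun f hf => ip_pos hw hp hI hf
  have hs := ip_symm (w := w) hI
  refine ⟨gs (ip w hI), fun i _ => gs_monic _ i, ?_⟩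
  have h1 := det_le (ip w hI) (ip_nonneg hp hI) (ip_cs hp hI) m (lg m x)
  rw [det_gram _ m _ (lg_deg m x), det_cf_lg m x hx, det_gs _ hs hpos] at h1
  have h2 : (∏ i ∈ Finset.range m, ∫ y : ℝ, (gs (ip w hI) i).eval y ^ 2 * w y) =
      ∏ i : Fin m, ip w hI (gs (ip w hI) i) (gs (ip w hI) i) := by
    rw [Finset.prod_range]
    refine Finset.prod_congr rfl fun i _ => ?_
    rw [ip_def]
    refine integral_congr_ae (Filter.Eventually.of_forall fun y => ?_)
    simp only [eval_mul, sq]
  have h3 : (∏ i ∈ Finset.range m,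
      ∫ y : ℝ, (∏ j ∈ (Finset.range m).erase i, (y - x j)) ^ 2 * w y) =
      ∏ i : Fin m, ip w hI (lg m x i) (lg m x i) := by
    rw [Finset.prod_range]
    refine Finset.prod_congr rfl fun i _ => ?_
    rw [ip_def]
    refine integral_congr_ae (Filter.Eventually.of_forall fun y => ?_)
    simp only [eval_mul, lg_eval, sq]
  rw [h2, h3, mul_comm (∏ i : Fin m, ip w hI (gs (ip w hI) i) (gs (ip w hI) i))]
  exact h1

end Pool.Agent.LPB
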