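import Pool.Agent.H97R2.LPB.Props
import Pool.Agent.H782R2.LPB.GramA

open Polynomial Filter Topology MeasureTheory Pool.Agent.H337R2 Pool.Agent.LP

namespace Pool.Agent.LPB

theorem G2_gram : S_gram := fun w hw hp hI m x hx => gram_main w hw hp hI m x hx

end Pool.Agent.LPB
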